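import Pool.Agent.K4H59.TL.Spec

open Set

namespace Pool.Agent.K4H59.TL

open Pool.Agent.K4H72.Til (IsPolygon ShareEdge IsTiling Tile Derivable Adj HasLocEig)

namespace M6

/-- the new tiling (same as in `M.lean.txt`) -/
abbrev nT {C : Type} (T : Set (Tile C)) (rep : Set ℂ → Set ℂ) (t : Set ℂ → ℂ)
    (D₀ : Set ℂ → Set (Set ℂ)) : Set (Tile (C × Set ℂ × Set ℂ)) :=
  {q | ∃ s ∈ T, ∃ Q₀ ∈ D₀ (rep s.1), q = (sh (t s.1) Q₀, (s.2, rep s.1, Q₀))}

theorem sh_mono {t : ℂ} {K L : Set ℂ} (h : K ⊆ L) : sh t K ⊆ sh t L := image_mono h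

theorem sh_zero (K : Set ℂ) : sh 0 K = K := by
  simp [sh]

theorem newT_noLSE_of
    (sh_polygon : ∀ {K : Set ℂ} (t : ℂ), IsPolygon K → IsPolygon (sh t K))
    (sh_interior : ∀ (t : ℂ) (K : Set ℂ), interior (sh t K) = sh t (interior K))
    (sh_share : ∀ {K L : Set ℂ} (t : ℂ), Share K L → Share (sh t K) (sh t L))
    (sh_sh : ∀ (s t : ℂ) (K : Set ℂ), sh s (sh t K) = sh (s + t) K)
    (share_iff : ∀ {A B : Set ℂ}, IsPolygon A → IsPolygon B → (ShareEdge A B ↔ Share A B))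
    {C : Type} {T : Set (Tile C)} (hT : IsTiling T) {rep : Set ℂ → Set ℂ} {t : Set ℂ → ℂ}
    (h1 : ∀ K, K = sh (t K) (rep K))
    {D₀ : Set ℂ → Set (Set ℂ)} {ρ₀ : Set ℂ → Set ℂ → ℕ} (hD : ∀ K, IsPolygon K → GoodDec K (D₀ K) (ρ₀ K)) :
    ¬ HasLocEig (nT T rep t D₀) := by
  classical
  rintro ⟨lam, ψ, hψ, hfin, heq⟩
  have hrep : ∀ s ∈ T, IsPolygon (rep s.1) := by
    intro s hs
    have h2 : rep s.1 = sh (-(t s.1)) s.1 := by
      have h3 := sh_sh (-(t s.1)) (t s.1) (rep s.1)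
      rw [neg_add_cancel, sh_zero, ← h1 s.1] at h3
      exact h3.symm
    rw [h2]
    exact sh_polygon _ (hT.polygon s hs)
  have hne : (Function.support ψ).Nonempty := by
    rw [Function.support_nonempty_iff]
    exact hψ
  obtain ⟨v, hv, hmax⟩ := Set.exists_max_image (Function.support ψ)
    (fun q : nT T rep t D₀ => ρ₀ q.1.2.2.1 q.1.2.2.2) hfin hne
  obtain ⟨s, hs, Q₀, hQ₀, hvq⟩ := v.2
  have hG := hD _ (hrep s hs)
  obtain ⟨W, hW, hrW, hshare, hnext⟩ := hG.next Q₀ hQ₀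
  let w : nT T rep t D₀ := ⟨(sh (t s.1) W, (s.2, rep s.1, W)), s, hs, W, hW, rfl⟩
  have hrv : ρ₀ v.1.2.2.1 v.1.2.2.2 = ρ₀ (rep s.1) Q₀ := by rw [hvq]
  have hw0 : ψ w = 0 := by
    by_contra hw
    have h2 := hmax w hw
    rw [hrv] at h2
    have h3 : ρ₀ w.1.2.2.1 w.1.2.2.2 = ρ₀ (rep s.1) W := rfl
    rw [h3] at h2
    omega
  have hpoly : ∀ u : nT T rep t D₀, IsPolygon u.1.1 := by
    intro u
    obtain ⟨s', hs', Q', hQ', huq⟩ := u.2
    rw [huq]
    exact sh_polygon _ ((hD _ (hrep s' hs')).poly Q' hQ')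
  have hvw : Adj v w := by
    refine ⟨?_, ?_⟩
    · intro h
      rw [h] at hv
      exact hv hw0
    · rw [share_iff (hpoly v) (hpoly w), hvq]
      exact sh_share _ hshare
  have huniq : ∀ u : nT T rep t D₀, Adj u w → ψ u ≠ 0 → u = v := by
    intro u huw hu
    have hru := hmax u hu
    rw [hrv] at hru
    obtain ⟨hne', hsh⟩ := huw
    rw [share_iff (hpoly u) (hpoly w)] at hsh
    obtain ⟨s', hs', Q', hQ', huq⟩ := u.2
    by_cases hss : s' = s
    · subst hss
      have hru' : ρ₀ (rep s'.1) Q' ≤ ρ₀ (rep s'.1) Q₀ := by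
        have : ρ₀ u.1.2.2.1 u.1.2.2.2 = ρ₀ (rep s'.1) Q' := by rw [huq]
        rwa [this] at hru
      have hQW : Q' ≠ W := by
        intro h
        apply hne'
        apply Subtype.ext
        rw [huq, h]
      have hS : Share Q' W := by
        have h3 : Share (sh (t s'.1) Q') (sh (t s'.1) W) := by
          rw [huq] at hsh
          exact hsh
        have h4 := sh_share (-(t s'.1)) h3
        rwa [sh_sh, sh_sh, neg_add_cancel, sh_zero, sh_zero] at h4
      have h5 := hnext Q' hQ' hQW hS hru'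
      apply Subtype.ext
      rw [huq, hvq, h5]
    · exfalso
      obtain ⟨e, ⟨⟨x, hx, -⟩, φ, c, -, -, he⟩, -, φ', c', -, -, he'⟩ := hsh
      have hx1 : x ∈ s'.1 := by
        have h3 : x ∈ u.1.1 := by
          rw [he] at hx
          exact hx.1
        rw [huq] at h3
        have h4 : x ∈ sh (t s'.1) Q' := h3
        rw [h1 s'.1]
        exact sh_mono ((hD _ (hrep s' hs')).sub Q' hQ') h4
      have hx2 : x ∈ interior s.1 := by
        have h3 : x ∈ w.1.1 := by
          rw [he'] at hx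
          exact hx.1
        have h4 : x ∈ sh (t s.1) W := h3
        rw [h1 s.1, sh_interior]
        exact sh_mono (hG.inner W hW (by omega)) h4
      have hx3 : x ∈ closure (interior s'.1) := (hT.polygon s' hs').2.2.1 hx1
      obtain ⟨y, hy1, hy2⟩ := mem_closure_iff.1 hx3 _ isOpen_interior hx2
      exact Set.disjoint_left.1 (hT.disj s hs s' hs' (Ne.symm hss)) hy1 hy2
  have h6 := heq w
  rw [hw0, mul_zero, finsum_mem_def, finsum_eq_single _ v] at h6
  · rw [Set.indicator_of_mem (show v ∈ {u | Adj u w} from hvw), sub_zero] at h6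
    exact hv h6
  · intro u huv
    by_cases huw : Adj u w
    · rw [Set.indicator_of_mem (show u ∈ {u | Adj u w} from huw), sub_zero]
      by_contra h7
      exact huv (huniq u huw h7)
    · exact Set.indicator_of_notMem (show u ∉ {u | Adj u w} from huw) _

end M6

end Pool.Agent.K4H59.TL
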